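import Pool.Agent.Helper392.Mey.Main
import Pool.Agent.Helper392.Mey.JA

set_option autoImplicit false
open Pool.Agent.Helper392.Mey

namespace Pool.Agent.Results.MP_d5c16a_gt.GrowthSqrt

/-- **The order of growth of `M_n` is `√n`**: there are absolute constants `0 < c`, `0 < C` with
`c √n ≤ M_n ≤ C √n` for every `n ≥ 1`. -/
theorem result : ∃ c C : ℝ, 0 < c ∧ 0 < C ∧ ∀ n : ℕ, 1 ≤ n →
    ENNReal.ofReal (c * Real.sqrt n) ≤ M n ∧ M n ≤ ENNReal.ofReal (C * Real.sqrt n) :=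
  growth kashin

end Pool.Agent.Results.MP_d5c16a_gt.GrowthSqrt
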